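import Pool.Agent.PFD.StmtsD2c

set_option autoImplicit false

/-!
# Squad PFD, row RWF: the reduction of a `WFS` and of the bimodule `X`
-/

open scoped BigOperators

noncomputable section

namespace Pool.Agent.PFD.D2b.H24

open MulOpposite
open Pool.Agent.PFC.B1 (BiM FS)
open Pool.Agent.PFD.D2

section
variable {R F Γ Γ0 W I : Type} [CommRing R] [Field F] {c : Cdv R F} [Ring Γ] [Algebra R Γ]
  [Ring Γ0] [Algebra F Γ0]

theorem fq_smul (f : FibG Γ Γ0 c) (r : R) (x : Γ) : f.q (r • x) = c.κ r • f.q x := by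
  rw [Algebra.smul_def, map_mul, f.sc, ← Algebra.smul_def]

theorem ka_pi : c.κ c.π = 0 := (c.ker c.π).2 ⟨1, (mul_one _).symm⟩

theorem key (f : FibG Γ Γ0 c) (lam : Γ →ₗ[R] R) {x x' : Γ} (h : f.q x = f.q x') :
    c.κ (lam x) = c.κ (lam x') := by
  obtain ⟨y, hy⟩ := f.ker (x - x') (by rw [map_sub, h, sub_self])
  have h1 : x = x' + c.π • y := by rw [← hy]; abel
  rw [h1, map_add, map_smul, smul_eq_mul, map_add, map_mul, ka_pi, zero_mul, add_zero]

/-- the reduction of a linear form -/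
def lam0 (f : FibG Γ Γ0 c) (lam : Γ →ₗ[R] R) : Γ0 →ₗ[F] F where
  toFun := fun z => c.κ (lam (Function.surjInv f.surj z))
  map_add' := fun a b => by
    rw [← map_add, ← map_add]
    apply key f lam
    rw [map_add, Function.surjInv_eq f.surj, Function.surjInv_eq f.surj,
      Function.surjInv_eq f.surj]
  map_smul' := fun r0 a => by
    obtain ⟨r, rfl⟩ := c.surj r0
    have h : c.κ (lam (Function.surjInv f.surj (c.κ r • a))) =
        c.κ (lam (r • Function.surjInv f.surj a)) := by
      apply key f lam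
      rw [fq_smul, Function.surjInv_eq f.surj, Function.surjInv_eq f.surj]
    rw [h, map_smul, smul_eq_mul, map_mul]
    rfl

theorem lam0_q (f : FibG Γ Γ0 c) (lam : Γ →ₗ[R] R) (x : Γ) :
    lam0 f lam (f.q x) = c.κ (lam x) :=
  key f lam (Function.surjInv_eq f.surj _)

variable [CommGroup W] [Fintype W] [Fintype I]

/-- the reduction of a `WFS` -/
def red (f : FibG Γ Γ0 c) (D : WFS R Γ W I) : WFS F Γ0 W I where
  lam := lam0 f D.lam
  sym := fun a b => by
    obtain ⟨x, rfl⟩ := f.surj a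
    obtain ⟨y, rfl⟩ := f.surj b
    rw [← map_mul, ← map_mul, lam0_q, lam0_q, D.sym]
  om := (f.q : Γ →* Γ0).comp D.om
  cf := fun i => f.q (D.cf i)
  cf' := fun i => f.q (D.cf' i)
  h1 := fun a => by
    obtain ⟨x, rfl⟩ := f.surj a
    conv_rhs => rw [← D.h1 x]
    rw [map_sum]
    refine Finset.sum_congr rfl fun i _ => ?_
    rw [map_sum]
    refine Finset.sum_congr rfl fun w _ => ?_
    show lam0 f D.lam (f.q (D.om w⁻¹) * f.q (D.cf' i) * f.q x) •
      (f.q (D.cf i) * f.q (D.om w)) = _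
    rw [← map_mul, ← map_mul, ← map_mul, lam0_q, fq_smul]
  h2 := fun a => by
    obtain ⟨x, rfl⟩ := f.surj a
    conv_rhs => rw [← D.h2 x]
    rw [map_sum]
    refine Finset.sum_congr rfl fun i _ => ?_
    rw [map_sum]
    refine Finset.sum_congr rfl fun w _ => ?_
    show lam0 f D.lam (f.q x * (f.q (D.cf i) * f.q (D.om w))) •
      (f.q (D.om w⁻¹) * f.q (D.cf' i)) = _
    rw [← map_mul, ← map_mul, ← map_mul, lam0_q, fq_smul]
  d1 := fun i w => by
    show lam0 f D.lam (f.q (D.om w⁻¹) * f.q (D.cf' i) * (f.q (D.cf i) * f.q (D.om w))) = 1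
    rw [← map_mul, ← map_mul, ← map_mul, lam0_q, D.d1, map_one]
  d0 := fun i j u w h => by
    show lam0 f D.lam (f.q (D.om u⁻¹) * f.q (D.cf' i) * (f.q (D.cf j) * f.q (D.om w))) = 0
    rw [← map_mul, ← map_mul, ← map_mul, lam0_q, D.d0 i j u w h, map_zero]
  ph := D.ph
  phb := D.phb
  nrm := fun i w => by
    show f.q (D.om w) * f.q (D.cf i) = f.q (D.cf i) * f.q (D.om (D.ph i w))
    rw [← map_mul, ← map_mul, D.nrm]

end

/-- **RWF** -/
theorem rwf : RwfStmt := by
  intro R F Γ Γ0 W I _ _ c _ _ _ _ f _ _ _ D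
  refine ⟨red f D, fun x => lam0_q f D.lam x, fun _ => rfl, fun _ => rfl, fun _ => rfl, ?_⟩
  intro Ω _ _ BX B0 hX h0
  refine ⟨{ s := { toFun := fun x t => f.q (x t)
                   map_zero' := ?_
                   map_add' := ?_ }
            sc := ?_
            lm := ?_
            rm := ?_
            surj := ?_
            ker := ?_ }⟩
  · funext t
    exact map_zero f.q
  · intro x y
    funext t
    exact map_add f.q _ _
  · intro r x
    funext t
    exact fq_smul f r (x t)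
  · intro γ x
    funext t
    obtain ⟨j, ω⟩ := t
    show f.q (BX.lm γ x (j, ω)) = B0.lm (f.q γ) (fun t => f.q (x t)) (j, ω)
    rw [hX.1, h0.1, map_sum]
    refine Finset.sum_congr rfl fun i _ => ?_
    rw [map_sum]
    refine Finset.sum_congr rfl fun w _ => ?_
    show _ = lam0 f D.lam (f.q (D.om w⁻¹) * f.q (D.cf' j) * f.q γ * f.q (D.cf i)) •
      (f.q (D.om w) * f.q (x (i, w⁻¹ • ω)))
    rw [← map_mul, ← map_mul, ← map_mul, ← map_mul, lam0_q, fq_smul]
  · intro γ x
    funext t
    show f.q (BX.rm (op γ) x t) = B0.rm (op (f.q γ)) (fun t => f.q (x t)) t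
    rw [hX.2, h0.2, map_mul]
  · intro y
    refine ⟨fun t => Function.surjInv f.surj (y t), ?_⟩
    funext t
    exact Function.surjInv_eq f.surj _
  · intro x hx
    have h : ∀ t, ∃ y, x t = c.π • y := fun t => f.ker _ (congrFun hx t)
    choose y hy using h
    exact ⟨y, funext hy⟩

end Pool.Agent.PFD.D2b.H24
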