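import Pool.Agent.PFD.StmtsD4

set_option autoImplicit false

/-!
# Squad PFD, row BRF: base change of a relative Frobenius system
-/

open scoped BigOperators TensorProduct

noncomputable section

namespace Pool.Agent.PFD.D4.H24

/-- **BRF** -/
theorem brf : BrfStmt := by
  intro R K Γ A N _ _ _ _ _ _ _ _ j pr s j' pr' hj hpr
  have h1 : ∀ a : K ⊗[R] A, ∑ k, ((1 : K) ⊗ₜ[R] s.x k) * j' (pr' (((1 : K) ⊗ₜ[R] s.y k) * a)) =
      a := by
    intro a
    induction a using TensorProduct.induction_on with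
    | zero => simp only [mul_zero, map_zero, Finset.sum_const_zero]
    | tmul x a =>
      have e : ∀ k, ((1 : K) ⊗ₜ[R] s.x k) * j' (pr' (((1 : K) ⊗ₜ[R] s.y k) * (x ⊗ₜ[R] a))) =
          x ⊗ₜ[R] (s.x k * j (pr (s.y k * a))) := by
        intro k
        rw [Algebra.TensorProduct.tmul_mul_tmul, hpr, hj, Algebra.TensorProduct.tmul_mul_tmul,
          one_mul, one_mul]
      rw [Finset.sum_congr rfl fun k _ => e k, ← TensorProduct.tmul_sum, s.e1]
    | add a b ha hb =>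
      simp only [mul_add, map_add, Finset.sum_add_distrib]
      rw [ha, hb]
  have h2 : ∀ a : K ⊗[R] A, ∑ k, j' (pr' (a * ((1 : K) ⊗ₜ[R] s.x k))) * ((1 : K) ⊗ₜ[R] s.y k) =
      a := by
    intro a
    induction a using TensorProduct.induction_on with
    | zero => simp only [zero_mul, map_zero, Finset.sum_const_zero]
    | tmul x a =>
      have e : ∀ k, j' (pr' ((x ⊗ₜ[R] a) * ((1 : K) ⊗ₜ[R] s.x k))) * ((1 : K) ⊗ₜ[R] s.y k) =
          x ⊗ₜ[R] (j (pr (a * s.x k)) * s.y k) := by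
        intro k
        rw [Algebra.TensorProduct.tmul_mul_tmul, hpr, hj, Algebra.TensorProduct.tmul_mul_tmul,
          mul_one, mul_one]
      rw [Finset.sum_congr rfl fun k _ => e k, ← TensorProduct.tmul_sum, s.e2]
    | add a b ha hb =>
      simp only [add_mul, map_add, Finset.sum_add_distrib]
      rw [ha, hb]
  refine ⟨⟨fun k => 1 ⊗ₜ s.x k, fun k => 1 ⊗ₜ s.y k, h1, h2⟩, fun _ => rfl, fun _ => rfl, ?_⟩
  intro a
  show ∑ k, ((1 : K) ⊗ₜ[R] s.x k) * (1 ⊗ₜ[R] a) * (1 ⊗ₜ[R] s.y k) = 1 ⊗ₜ[R] ∑ k, s.x k * a * s.y k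
  rw [TensorProduct.tmul_sum]
  refine Finset.sum_congr rfl fun k _ => ?_
  rw [Algebra.TensorProduct.tmul_mul_tmul, Algebra.TensorProduct.tmul_mul_tmul, one_mul, one_mul]

end Pool.Agent.PFD.D4.H24
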