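import Mathlib

set_option autoImplicit false

/-!
# Squad PFD, row NCG, part 1: commuting pairs of a semidirect product `V : E`, `V` commutative,
of coprime orders
-/

open scoped BigOperators

noncomputable section

namespace Pool.Agent.PFD.H24N

section
variable {V E : Type} [CommGroup V] [Group E] (φ : E →* MulAut V)

/-- `v ↦ v / φ_g v` -/
def dl (g : E) : V →* V := MonoidHom.id V / (φ g).toMonoidHom

theorem dl_apply (g : E) (v : V) : dl φ g v = v / φ g v := rfl

/-- `(v, w) ↦ (v / φ_f v) (w / φ_e w)⁻¹` -/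
def DD (e f : E) : V × V →* V := (dl φ f).coprod (dl φ e)⁻¹

theorem DD_apply (e f : E) (x : V × V) : DD φ e f x = (x.1 / φ f x.1) * (x.2 / φ e x.2)⁻¹ := rfl

/-- the average over the subgroup `H` -/
def PP (H : Subgroup E) [Fintype H] : V →* V := ∏ h : H, (φ h).toMonoidHom

theorem PP_apply (H : Subgroup E) [Fintype H] (v : V) : PP φ H v = ∏ h : H, φ h v := by
  unfold PP
  rw [MonoidHom.finsetProd_apply]
  rfl

theorem PP_right (H : Subgroup E) [Fintype H] (g : E) (hg : g ∈ H) (v : V) :
    PP φ H (φ g v) = PP φ H v := by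
  rw [PP_apply, PP_apply]
  refine Fintype.prod_equiv (Equiv.mulRight (⟨g, hg⟩ : H)) _ _ fun h => ?_
  show φ h (φ g v) = φ ((h : E) * g) v
  rw [map_mul, MulAut.mul_apply]

theorem PP_left (H : Subgroup E) [Fintype H] (g : E) (hg : g ∈ H) (v : V) :
    φ g (PP φ H v) = PP φ H v := by
  rw [PP_apply, map_prod]
  refine Fintype.prod_equiv (Equiv.mulLeft (⟨g, hg⟩ : H)) _ _ fun h => ?_
  show φ g (φ h v) = φ (g * (h : E)) v
  rw [map_mul, MulAut.mul_apply]

theorem count [Finite V] [Finite E] (hcop : (Nat.card V).Coprime (Nat.card E)) (e f : E) :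
    Nat.card {x : V × V // x.1 * φ e x.2 = x.2 * φ f x.1} =
      Nat.card V * Nat.card {v : V // φ e v = v ∧ φ f v = v} := by
  classical
  let H : Subgroup E := Subgroup.closure {e, f}
  have heH : e ∈ H := Subgroup.subset_closure (by simp)
  have hfH : f ∈ H := Subgroup.subset_closure (by simp)
  have : Fintype H := Fintype.ofFinite H
  have hroot : ∀ v : V, ∃ m : ℕ, (v ^ Fintype.card H) ^ m = v := by
    intro v
    apply exists_pow_eq_self_of_coprime
    rw [← Nat.card_eq_fintype_card]
    have h1 : (Nat.card H).Coprime (Nat.card V) :=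
      (hcop.symm).coprime_dvd_left (Subgroup.card_subgroup_dvd_card H)
    exact h1.coprime_dvd_right (orderOf_dvd_natCard v)
  -- the image of `DD` is the kernel of the average
  have hI : (DD φ e f).range = (PP φ H).ker := by
    apply le_antisymm
    · rintro _ ⟨x, rfl⟩
      rw [MonoidHom.mem_ker, DD_apply, map_mul, map_inv, map_div, map_div, PP_right φ H f hfH,
        PP_right φ H e heH, div_self', div_self', inv_one, mul_one]
    · intro v hv
      have key : ∀ h ∈ H, ∀ w : V, w / φ h w ∈ (DD φ e f).range := by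
        intro h hh
        induction hh using Subgroup.closure_induction with
        | mem x hx =>
          intro w
          rcases hx with rfl | hx
          · refine ⟨(1, w⁻¹), ?_⟩
            rw [DD_apply]
            simp only [map_one, one_mul, map_inv, div_eq_mul_inv, mul_inv_rev, inv_inv, inv_one,
              mul_one]
            rw [mul_comm]
          · rw [Set.mem_singleton_iff] at hx
            subst hx
            refine ⟨(w, 1), ?_⟩
            rw [DD_apply]
            simp
        | one => intro w; simp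
        | mul x y _ _ hx hy =>
          intro w
          have e1 : w / φ (x * y) w = (w / φ y w) * (φ y w / φ x (φ y w)) := by
            rw [map_mul, MulAut.mul_apply, div_mul_div_cancel]
          rw [e1]
          exact mul_mem (hy w) (hx _)
        | inv x _ hx =>
          intro w
          have e1 : w / φ x⁻¹ w = (φ x⁻¹ w / φ x (φ x⁻¹ w))⁻¹ := by
            rw [← MulAut.mul_apply, ← map_mul, mul_inv_cancel, map_one, MulAut.one_apply,
              inv_div]
          rw [e1]
          exact inv_mem (hx _)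
      have h1 : v ^ Fintype.card H / PP φ H v ∈ (DD φ e f).range := by
        rw [PP_apply]
        have e2 : v ^ Fintype.card H = ∏ _h : H, v := by
          rw [Finset.prod_const, Finset.card_univ]
        rw [e2, ← Finset.prod_div_distrib]
        exact Subgroup.prod_mem _ fun h _ => key h h.2 v
      rw [MonoidHom.mem_ker] at hv
      rw [hv, div_one] at h1
      obtain ⟨m, hm⟩ := hroot v
      rw [← hm]
      exact pow_mem h1 m
  -- the image of the average
  have hfix : ∀ v : V, φ e v = v → φ f v = v → PP φ H v = v ^ Fintype.card H := by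
    intro v h1 h2
    have h3 : ∀ h ∈ H, φ h v = v := by
      intro h hh
      induction hh using Subgroup.closure_induction with
      | mem x hx =>
        rcases hx with rfl | hx
        · exact h1
        · rw [Set.mem_singleton_iff] at hx
          subst hx
          exact h2
      | one => simp
      | mul x y _ _ hx hy => rw [map_mul, MulAut.mul_apply, hy, hx]
      | inv x _ hx =>
        have h4 : φ x⁻¹ (φ x v) = v := by
          rw [← MulAut.mul_apply, ← map_mul, inv_mul_cancel, map_one, MulAut.one_apply]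
        rwa [hx] at h4
    rw [PP_apply]
    refine (Finset.prod_congr rfl fun (h : H) _ => h3 h h.2).trans ?_
    rw [Finset.prod_const, Finset.card_univ]
  have hC : Nat.card (PP φ H).range = Nat.card {v : V // φ e v = v ∧ φ f v = v} := by
    refine Nat.card_congr (Equiv.subtypeEquivRight fun v => ?_)
    constructor
    · rintro ⟨w, rfl⟩
      exact ⟨PP_left φ H e heH w, PP_left φ H f hfH w⟩
    · rintro ⟨h1, h2⟩
      obtain ⟨m, hm⟩ := hroot v
      refine ⟨v ^ m, ?_⟩
      rw [map_pow, hfix v h1 h2, hm]
  have hK : Nat.card {x : V × V // x.1 * φ e x.2 = x.2 * φ f x.1} = Nat.card (DD φ e f).ker := by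
    refine Nat.card_congr (Equiv.subtypeEquivRight fun x => ?_)
    rw [MonoidHom.mem_ker, DD_apply, mul_inv_eq_one, div_eq_div_iff_mul_eq_mul]
  have c1 := Subgroup.card_mul_index (DD φ e f).ker
  have c2 := Subgroup.card_mul_index (PP φ H).ker
  rw [Subgroup.index_ker] at c1 c2
  rw [hI, Nat.card_prod, ← c2] at c1
  have hpos : 0 < Nat.card (PP φ H).ker := Nat.card_pos
  rw [hK, ← hC, ← c2]
  have c3 : Nat.card (PP φ H).ker * Nat.card (DD φ e f).ker =
      Nat.card (PP φ H).ker * (Nat.card (PP φ H).ker * Nat.card (PP φ H).range *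
        Nat.card (PP φ H).range) := by
    rw [mul_comm, c1]
    ring
  exact Nat.eq_of_mul_eq_mul_left hpos c3

/-- commuting pairs of the semidirect product -/
def eq1 : {p : (V ⋊[φ] E) × (V ⋊[φ] E) // Commute p.1 p.2} ≃
    Σ q : {q : E × E // Commute q.1 q.2},
      {x : V × V // x.1 * φ q.1.1 x.2 = x.2 * φ q.1.2 x.1} where
  toFun := fun p => ⟨⟨(p.1.1.right, p.1.2.right), congrArg SemidirectProduct.right p.2.eq⟩,
    ⟨(p.1.1.left, p.1.2.left), congrArg SemidirectProduct.left p.2.eq⟩⟩
  invFun := fun q => ⟨(⟨q.2.1.1, q.1.1.1⟩, ⟨q.2.1.2, q.1.1.2⟩),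
    SemidirectProduct.ext q.2.2 q.1.2.eq⟩
  left_inv := fun _ => rfl
  right_inv := fun _ => rfl

/-- the stabiliser of `v` -/
def Fx (v : V) : Subgroup E where
  carrier := {e | φ e v = v}
  one_mem' := by
    change φ 1 v = v
    rw [map_one]
    rfl
  mul_mem' := by
    intro a b ha hb
    change φ a v = v at ha
    change φ b v = v at hb
    change φ (a * b) v = v
    rw [map_mul, MulAut.mul_apply, hb, ha]
  inv_mem' := by
    intro a ha
    change φ a v = v at ha
    change φ a⁻¹ v = v
    rw [map_inv]
    have h : (φ a)⁻¹ (φ a v) = v := MulAut.inv_apply_self V (φ a) v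
    rwa [ha] at h

/-- commuting pairs with a fixed vector -/
def eq2 : (Σ q : {q : E × E // Commute q.1 q.2}, {v : V // φ q.1.1 v = v ∧ φ q.1.2 v = v}) ≃
    Σ v : V, {p : Fx φ v × Fx φ v // Commute p.1 p.2} where
  toFun := fun q => ⟨q.2.1, ⟨(⟨q.1.1.1, q.2.2.1⟩, ⟨q.1.1.2, q.2.2.2⟩), Subtype.ext q.1.2.eq⟩⟩
  invFun := fun p => ⟨⟨(p.2.1.1.1, p.2.1.2.1), congrArg Subtype.val p.2.2.eq⟩,
    ⟨p.1, p.2.1.1.2, p.2.1.2.2⟩⟩
  left_inv := fun _ => rfl
  right_inv := fun _ => rfl

theorem main [Finite V] [Finite E] (hcop : (Nat.card V).Coprime (Nat.card E)) :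
    Nat.card E * Nat.card (ConjClasses (V ⋊[φ] E)) =
      ∑ᶠ v : V, Nat.card (Fx φ v) * Nat.card (ConjClasses (Fx φ v)) := by
  classical
  have : Fintype V := Fintype.ofFinite V
  have : Fintype E := Fintype.ofFinite E
  have : Finite (V ⋊[φ] E) := Finite.of_equiv _ SemidirectProduct.equivProd.symm
  have h1 := card_comm_eq_card_conjClasses_mul_card (V ⋊[φ] E)
  rw [Nat.card_congr (eq1 φ), Nat.card_sigma] at h1
  rw [Finset.sum_congr rfl fun q _ => count φ hcop q.1.1 q.1.2, ← Finset.mul_sum,
    ← Nat.card_sigma, Nat.card_congr (eq2 φ), Nat.card_sigma,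
    Finset.sum_congr rfl fun v _ => card_comm_eq_card_conjClasses_mul_card (Fx φ v),
    Nat.card_congr SemidirectProduct.equivProd, Nat.card_prod] at h1
  rw [finsum_eq_sum_of_fintype]
  have hV : 0 < Nat.card V := Nat.card_pos
  apply Nat.eq_of_mul_eq_mul_left hV
  rw [Finset.sum_congr rfl fun v _ => mul_comm (Nat.card (Fx φ v)) _, h1]
  ring

end

end Pool.Agent.PFD.H24N
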