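import Pool.Agent.PFD.StmtsD5b
import Pool.Agent.Helper24_PFD.NCGa

set_option autoImplicit false

/-!
# Squad PFD, row NCG: the conjugacy classes of `V : E`
-/

open scoped BigOperators

namespace Pool.Agent.PFD.H24

/-- **NCG** -/
theorem ncg : NcgStmt := by
  intro V E gV _ _ _ φ hcomm hcop
  exact @Pool.Agent.PFD.H24N.main V E (@CommGroup.mk V gV hcomm) _ φ _ _ hcop

end Pool.Agent.PFD.H24
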