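import Pool.Agent.PFD.StmtsD1

set_option autoImplicit false

/-!
# Squad PFD, row NTX: the network data of a Higman operator
-/

open scoped BigOperators

namespace Pool.Agent.PFD.H24

open Pool.Agent.PFC.B1

section
variable {R B A I J : Type} [CommRing R] [Ring B] [Algebra R B] [Ring A] [Algebra R A]
  [Fintype I] [Fintype J] {c : FS R B I}

/-- the projector onto the complement -/
noncomputable def qq (sp : Split c A) : A →ₗ[R] A := LinearMap.id - sp.j.toLinearMap ∘ₗ sp.pr

theorem qq_apply (sp : Split c A) (a : A) : qq sp a = a - sp.j (sp.pr a) := rfl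

theorem pr_qq (sp : Split c A) (a : A) : sp.pr (qq sp a) = 0 := by
  rw [qq_apply, map_sub, sp.pr_j, sub_self]

theorem qq_qq (sp : Split c A) (a : A) : qq sp (qq sp a) = qq sp a := by
  rw [qq_apply sp (qq sp a), pr_qq, map_zero, sub_zero]

theorem qq_l (sp : Split c A) (b : B) (a : A) : qq sp (sp.j b * a) = sp.j b * qq sp a := by
  rw [qq_apply, qq_apply, sp.pr_l, map_mul, mul_sub]

theorem qq_r (sp : Split c A) (a : A) (b : B) : qq sp (a * sp.j b) = qq sp a * sp.j b := by
  rw [qq_apply, qq_apply, sp.pr_r, map_mul, sub_mul]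

theorem qq_adj (d : FS R A J) (sp : Split c A) (hT : ∀ x, d.lam x = c.lam (sp.pr x)) (a a' : A) :
    d.lam (qq sp a * a') = d.lam (a * qq sp a') := by
  rw [qq_apply, qq_apply, sub_mul, mul_sub, map_sub, map_sub]
  congr 1
  rw [hT, hT, sp.pr_l, sp.pr_r]

/-- the adjoint of a linear map -/
noncomputable def ad (d : FS R A J) (f : A →ₗ[R] A) (z : A) : A :=
  ∑ p, d.lam (f (d.b p) * z) • d.b' p

theorem ad_spec (d : FS R A J) (hs : ∀ x y, d.lam (x * y) = d.lam (y * x)) (f : A →ₗ[R] A)
    (e z : A) : d.lam (e * ad d f z) = d.lam (f e * z) := by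
  have h : f e = ∑ p, d.lam (d.b' p * e) • f (d.b p) := by
    conv_lhs => rw [← d.h1 e]
    rw [map_sum]
    exact Finset.sum_congr rfl fun p _ => by rw [map_smul]
  rw [h, Finset.sum_mul, map_sum]
  unfold ad
  rw [Finset.mul_sum, map_sum]
  refine Finset.sum_congr rfl fun p _ => ?_
  rw [mul_smul_comm, map_smul, smul_mul_assoc, map_smul, hs e, smul_eq_mul, smul_eq_mul, mul_comm]

/-- an element is determined by its form values -/
theorem nondeg (d : FS R A J) {z w : A} (h : ∀ f, d.lam (z * f) = d.lam (w * f)) : z = w := by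
  rw [← d.h2 z, ← d.h2 w]
  exact Finset.sum_congr rfl fun i _ => by rw [h]

/-- the averages of the adjoint -/
theorem ad_avg (d : FS R A J) (sp : Split c A) (hs : ∀ x y, d.lam (x * y) = d.lam (y * x))
    (hT : ∀ x, d.lam x = c.lam (sp.pr x)) (e : A) :
    ∑ i, ∑ l, sp.j (c.b i) * ad d sp.a (sp.j (c.b' i) * e * sp.j (c.b l)) * sp.j (c.b' l) =
      qq sp e := by
  apply nondeg d
  intro f
  have h1 : d.lam (qq sp e * f) = d.lam (qq sp f * e) := by
    rw [qq_adj d sp hT, hs]
  rw [h1, qq_apply, ← sp.a_id f]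
  simp only [Finset.sum_mul, map_sum]
  rw [Finset.sum_comm]
  refine Finset.sum_congr rfl fun l _ => Finset.sum_congr rfl fun i _ => ?_
  have h2 : d.lam (sp.j (c.b i) * ad d sp.a (sp.j (c.b' i) * e * sp.j (c.b l)) *
      sp.j (c.b' l) * f) =
      d.lam ((sp.j (c.b' l) * f * sp.j (c.b i)) *
        ad d sp.a (sp.j (c.b' i) * e * sp.j (c.b l))) := by
    rw [mul_assoc (sp.j (c.b i) * _) _ f, hs]
    simp only [mul_assoc]
  have h3 : d.lam (sp.j (c.b l) * sp.a (sp.j (c.b' l) * f * sp.j (c.b i)) * sp.j (c.b' i) * e) =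
      d.lam (sp.a (sp.j (c.b' l) * f * sp.j (c.b i)) * (sp.j (c.b' i) * e * sp.j (c.b l))) := by
    rw [mul_assoc, mul_assoc, hs]
    simp only [mul_assoc]
  rw [h2, h3, ad_spec d hs]

end

/-- **NTX** -/
theorem ntx : NtxStmt := by
  intro R B A I J _ _ _ _ _ _ _ c d sp hc hs hT
  refine ⟨{ c := c
            d := d
            cs := hc
            ds := hs
            j := sp.j
            pr := sp.pr
            pr_j := sp.pr_j
            pr_l := sp.pr_l
            pr_r := sp.pr_r
            ort := hT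
            x := fun p => qq sp (sp.a (qq sp (d.b p)))
            y := fun p => qq sp (d.b' p)
            px := fun p => pr_qq sp _
            py := fun p => pr_qq sp _
            cx := ?_
            cy := ?_ }, rfl, rfl, rfl, rfl⟩
  · intro a
    have key : ∀ i l, ∑ r, d.lam (sp.j (c.b l) * qq sp (d.b' r) * sp.j (c.b' i) * a) •
        (sp.j (c.b i) * qq sp (sp.a (qq sp (d.b r))) * sp.j (c.b' l)) =
        qq sp (sp.j (c.b i) * sp.a (sp.j (c.b' i) * qq sp a * sp.j (c.b l)) * sp.j (c.b' l)) := by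
      intro i l
      have h1 : ∀ r, d.lam (sp.j (c.b l) * qq sp (d.b' r) * sp.j (c.b' i) * a) =
          d.lam (d.b' r * qq sp (sp.j (c.b' i) * a * sp.j (c.b l))) := by
        intro r
        rw [← qq_adj d sp hT, mul_assoc, mul_assoc, hs]
        simp only [mul_assoc]
      have h2 : ∑ r, d.lam (d.b' r * qq sp (sp.j (c.b' i) * a * sp.j (c.b l))) •
          (sp.j (c.b i) * qq sp (sp.a (qq sp (d.b r))) * sp.j (c.b' l)) =
          sp.j (c.b i) * qq sp (sp.a (qq sp (∑ r, d.lam (d.b' r *
            qq sp (sp.j (c.b' i) * a * sp.j (c.b l))) • d.b r))) * sp.j (c.b' l) := by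
        simp only [map_sum, map_smul, Finset.mul_sum, Finset.sum_mul, mul_smul_comm,
          smul_mul_assoc]
      refine (Finset.sum_congr rfl fun r _ => by rw [h1 r]).trans (h2.trans ?_)
      rw [d.h1, qq_qq, qq_r, qq_l, qq_r, qq_l]
    rw [Finset.sum_comm]
    refine (Finset.sum_congr rfl fun i _ => Finset.sum_comm).trans ?_
    refine (Finset.sum_congr rfl fun i _ => Finset.sum_congr rfl fun l _ => key i l).trans ?_
    simp only [← map_sum]
    rw [sp.a_id, ← qq_apply, qq_qq, qq_qq, qq_apply]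
  · intro a
    have key : ∀ i l, ∑ r, d.lam (sp.j (c.b l) * qq sp (sp.a (qq sp (d.b r))) *
        sp.j (c.b' i) * a) • (sp.j (c.b i) * qq sp (d.b' r) * sp.j (c.b' l)) =
        qq sp (sp.j (c.b i) * ad d sp.a (sp.j (c.b' i) * qq sp a * sp.j (c.b l)) *
          sp.j (c.b' l)) := by
      intro i l
      have h1 : ∀ r, d.lam (sp.j (c.b l) * qq sp (sp.a (qq sp (d.b r))) * sp.j (c.b' i) * a) =
          d.lam (qq sp (ad d sp.a (qq sp (sp.j (c.b' i) * a * sp.j (c.b l)))) * d.b r) := by
        intro r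
        have e1 : d.lam (sp.j (c.b l) * qq sp (sp.a (qq sp (d.b r))) * sp.j (c.b' i) * a) =
            d.lam (qq sp (sp.a (qq sp (d.b r))) * (sp.j (c.b' i) * a * sp.j (c.b l))) := by
          rw [mul_assoc, mul_assoc, hs]
          simp only [mul_assoc]
        rw [e1, qq_adj d sp hT, ← ad_spec d hs, hs, ← qq_adj d sp hT]
      have h2 : ∑ r, d.lam (qq sp (ad d sp.a (qq sp (sp.j (c.b' i) * a * sp.j (c.b l)))) *
          d.b r) • (sp.j (c.b i) * qq sp (d.b' r) * sp.j (c.b' l)) =
          sp.j (c.b i) * qq sp (∑ r, d.lam (qq sp (ad d sp.a (qq sp (sp.j (c.b' i) * a *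
            sp.j (c.b l)))) * d.b r) • d.b' r) * sp.j (c.b' l) := by
        simp only [map_sum, map_smul, Finset.mul_sum, Finset.sum_mul, mul_smul_comm,
          smul_mul_assoc]
      refine (Finset.sum_congr rfl fun r _ => by rw [h1 r]).trans (h2.trans ?_)
      rw [d.h2, qq_qq, qq_r sp _ (c.b l), qq_l, qq_r, qq_l]
    rw [Finset.sum_comm]
    refine (Finset.sum_congr rfl fun i _ => Finset.sum_comm).trans ?_
    refine (Finset.sum_congr rfl fun i _ => Finset.sum_congr rfl fun l _ => key i l).trans ?_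
    simp only [← map_sum]
    rw [ad_avg d sp hs hT, qq_qq, qq_qq, qq_apply]

end Pool.Agent.PFD.H24
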